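import Pool.Agent.N893.CF.Fin

set_option autoImplicit false

/-!
# Quadratic polynomials with a late first prime value

In Conjecture F the coefficients `a, b, c` are fixed. Here `a` and `b` are fixed, and it is shown how late the
first prime value of `a t² + b t + c` can be as `c` varies: in every interval of length `X` there is a `c`
such that `(a, b, c)` satisfies all the hypotheses of the conjecture and `|a t² + b t + c|` is not a prime for
any integer `t` with `|t| ≤ κ log X (log₂ X)⁴ (log₄ X)² / (log₃ X)⁴`. So the asymptotic formula cannot hold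
uniformly for `x` up to this bound, for any given `a` and `b`.

Proof. Let `N = 2 a t + b`, so that `4 a f(t) = N² - Δ`, and let `y` be about `(log X) / 10`. With a suitable
fixed integer `u` (`N - u` and `N + u` are prime to `2 a`) put `Δ ≡ u² (mod p)` for the primes
`p ≤ (log y)^5` and `v < p ≤ y` not dividing `2 a`, where `log v = log y log₃ y / (14 log₂ y)`. If none of
these primes divides `f(t)` then, up to few smooth numbers, `|N - u|` and `|N + u|` are both primes, and
Brun's bound saves `(log y)²`. For the other primes a greedy choice of a root `s` of `f` modulo `p` (then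
`-b/a - s` is the other root) saves `(log y log₃ y)² / (log₂ y)⁴`. The `O(log X)` values left are made
composite by the sieve of the starting result MP_3bc45c_nt.RecordGaps (`H361R2.PA.assembleM`). That `Δ` is
not a square is a condition modulo the square of an auxiliary prime `q₀ ∣ u`: `Δ ≡ q₀ (mod q₀²)`.
-/

namespace Pool.Agent.Results.MP_a17b09_nt.LateFirstPrimes

/-- The hypotheses of Conjecture F on the coefficients. -/
def Admissible (a b c : ℤ) : Prop :=
  0 < a ∧ Int.gcd a (Int.gcd b c) = 1 ∧ ¬ (Even (a + b) ∧ Even c) ∧ ¬ IsSquare (b ^ 2 - 4 * a * c)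

/-- `log X (log₂ X)⁴ (log₄ X)² / (log₃ X)⁴` with the iterated logarithms `log₂, log₃, log₄`. -/
noncomputable def range (X : ℝ) : ℝ :=
  Real.log X * (Real.log (Real.log X)) ^ 4 * (Real.log (Real.log (Real.log (Real.log X)))) ^ 2 /
    (Real.log (Real.log (Real.log X))) ^ 4

/-- For all integers `a > 0` and `b` there are `κ > 0` and `X₀` such that for all `X ≥ X₀` every interval
`(z, z + X]` contains an integer `c` such that `(a, b, c)` is admissible and `|a t² + b t + c|` is not a prime
for any integer `t` with `|t| ≤ κ * range X`. -/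
theorem result (a b : ℤ) (ha : 0 < a) : ∃ κ : ℝ, 0 < κ ∧ ∃ X₀ : ℝ, ∀ X : ℝ, X₀ ≤ X → ∀ z : ℤ,
    ∃ c : ℤ, (z : ℝ) < c ∧ (c : ℝ) ≤ z + X ∧ Admissible a b c ∧
      ∀ t : ℤ, |(t : ℝ)| ≤ κ * range X → ¬ (a * t ^ 2 + b * t + c).natAbs.Prime := by
  obtain ⟨a', rfl⟩ := Int.eq_ofNat_of_zero_le ha.le
  have ha' : 1 ≤ a' := by exact_mod_cast ha
  obtain ⟨κ, hκ, X₀, h⟩ := Pool.Agent.N893.CF.main a' ha' b
  refine ⟨κ, hκ, X₀, fun X hX z => ?_⟩
  obtain ⟨c, h1, h2, h3, h4, h5⟩ := h X hX z
  refine ⟨c, h1, h2, ⟨ha, ?_, ?_, h4⟩, fun t ht hp => h5 t ht (Int.prime_iff_natAbs_prime.2 hp)⟩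
  · have hg1 : ((Int.gcd (a' : ℤ) ((Int.gcd b c : ℕ) : ℤ) : ℕ) : ℤ) ∣ (a' : ℤ) := Int.gcd_dvd_left _ _
    have hg2 : ((Int.gcd (a' : ℤ) ((Int.gcd b c : ℕ) : ℤ) : ℕ) : ℤ) ∣ c :=
      (Int.gcd_dvd_right _ _).trans (Int.gcd_dvd_right _ _)
    have hg3 : ((Int.gcd (a' : ℤ) ((Int.gcd b c : ℕ) : ℤ) : ℕ) : ℤ) ∣ c - 1 :=
      (hg1.mul_left 2).trans h3
    have hg4 := dvd_sub hg2 hg3
    have e : c - (c - 1) = 1 := by ring
    rw [e] at hg4
    have := Int.eq_one_of_dvd_one (by positivity) hg4
    exact_mod_cast this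
  · rintro ⟨_, hc⟩
    obtain ⟨r, hr⟩ := hc
    obtain ⟨k, hk⟩ := h3
    have : r + r - 1 = 2 * ((a' : ℤ) * k) := by rw [← hr, hk]; ring
    omega

end Pool.Agent.Results.MP_a17b09_nt.LateFirstPrimes
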