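import Mathlib
import Pool.Agent.N893.MC.Fin

set_option autoImplicit false

/-!
# Late first prime values of `t ^ n + a`

The asymptotic formula for the primes of the form `t ^ n + a` cannot hold uniformly in `a`: for each `n` and
each residue class `a₀ (mod W)`, every interval of length `X` contains an integer `a ≡ a₀ (mod W)` such that
no `t ^ n + a` with `|t| ≤ c log X (log₂ X) ^ (d(n) + κ) (log₄ X) ^ κ / (log₃ X) ^ (2 κ)` is a prime, up to
sign, where `d(n)` is the number of divisors of `n`, and `κ = 1` for odd `n`, `κ = 2` for even `n`. For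
`W = 4`, `a₀ = 2` the polynomials `t ^ n + a` are irreducible.

Proof. Let `y = (log X) / 10`, `S` the primes in `(u, v]`, `log u = B log₂ y`,
`log v = log y log₃ y / (2 (B + 2) log₂ y)`. Put `a ≡ -1` modulo the primes `p ≤ y` outside `S`: they remove
the `t` with `t ^ n ≡ 1 (mod p)`, which are `gcd (n, p - 1)` classes. If `t` is left, `t - 1` (and `t + 1`,
if `n` is even) is smooth or has no prime factor in `S` either. So Selberg's sieve applies with
`gcd (n, p - 1)` classes for the small `p` outside `S` and with `κ` classes for `p` in `S`. For the primes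
of `S` a greedy choice of `-a ≡ s ^ n` removes `gcd (n, p - 1)` classes again. Since `gcd (n, p - 1)` is
`d(n)` on average, `O(log X)` values are left; they are made composite by the sieve of the starting result
MP_3bc45c_nt.RecordGaps, in the form `H361R2.PA.assembleM`.
-/

namespace Pool.Agent.Results.MP_484c84_nt.PowersPlusA

open Finset Polynomial

/-- `κ(n)`: `2` if `n` is even, `1` if `n` is odd -/
def kp (n : ℕ) : ℕ := if Even n then 2 else 1

/-- `log X (log₂ X) ^ (d(n) + κ(n)) (log₄ X) ^ κ(n) / (log₃ X) ^ (2 κ(n))` -/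
noncomputable def F (n : ℕ) (X : ℝ) : ℝ :=
  Real.log X * (Real.log (Real.log X)) ^ (n.divisors.card + kp n) *
    (Real.log (Real.log (Real.log (Real.log X)))) ^ (kp n) /
      (Real.log (Real.log (Real.log X))) ^ (2 * kp n)

theorem irr (n : ℕ) (hn : 1 ≤ n) (a : ℤ) (ha : (4 : ℤ) ∣ a - 2) : Irreducible (X ^ n + C a : Polynomial ℤ) := by
  have hP : (Ideal.span {(2 : ℤ)}).IsPrime := by
    rw [Ideal.span_singleton_prime two_ne_zero]
    exact Int.prime_two
  have h2a : (2 : ℤ) ∣ a := by
    obtain ⟨j, hj⟩ := ha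
    exact ⟨2 * j + 1, by linarith⟩
  have hmon : (X ^ n + C a : Polynomial ℤ).Monic := monic_X_pow_add_C a (by omega)
  have hE : (X ^ n + C a : Polynomial ℤ).IsEisensteinAt (Ideal.span {(2 : ℤ)}) := by
    refine ⟨?_, ?_, ?_⟩
    · rw [hmon.leadingCoeff, Ideal.mem_span_singleton]
      intro h
      have := Int.eq_one_of_dvd_one (by norm_num) h
      norm_num at this
    · intro m hm
      rw [natDegree_X_pow_add_C] at hm
      rw [Ideal.mem_span_singleton, coeff_add, coeff_X_pow, if_neg (by omega), zero_add, coeff_C]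
      split_ifs
      · exact h2a
      · exact dvd_zero _
    · rw [Ideal.span_singleton_pow, Ideal.mem_span_singleton, coeff_add, coeff_X_pow, if_neg (by omega), zero_add,
        coeff_C_zero]
      intro h
      obtain ⟨j, hj⟩ := ha
      obtain ⟨i, hi⟩ := h
      omega
  exact hE.irreducible hP hmon.isPrimitive (by rw [natDegree_X_pow_add_C]; omega)

/-- For all `n, W ≥ 1` and `a₀` there is `c > 0` such that for all large `x` every interval `(z, z + x]`
contains an integer `a ≡ a₀ (mod W)` such that `t ^ n + a` is not a prime (up to sign) for any integer `t`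
with `|t| ≤ c * F n x`. The polynomial `X ^ n + a` has no fixed prime divisor, and is irreducible if `4 ∣ W`
and `a₀ ≡ 2 (mod 4)`. -/
theorem result (n : ℕ) (hn : 1 ≤ n) (W : ℕ) (hW : 1 ≤ W) (a₀ : ℤ) :
    ∃ c : ℝ, 0 < c ∧ ∃ X₀ : ℝ, ∀ x : ℝ, X₀ ≤ x → ∀ z : ℤ,
      ∃ a : ℤ, (z : ℝ) < a ∧ (a : ℝ) ≤ z + x ∧ (W : ℤ) ∣ a - a₀ ∧
        ((4 : ℤ) ∣ W → (4 : ℤ) ∣ a₀ - 2 → Irreducible (X ^ n + C a : Polynomial ℤ)) ∧
        (∀ p : ℕ, p.Prime → ∃ t : ℤ, ¬ (p : ℤ) ∣ t ^ n + a) ∧
        ∀ t : ℤ, |(t : ℝ)| ≤ c * F n x → ¬ Prime (t ^ n + a) := by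
  obtain ⟨c, hc, X₀, h⟩ := Pool.Agent.N893.MC.mainN n hn W hW a₀
  refine ⟨c, hc, X₀, fun x hx z => ?_⟩
  obtain ⟨a, h1, h2, h3, h4⟩ := h x hx z
  refine ⟨a, h1, h2, h3, fun h5 h6 => irr n hn a ?_, fun p hp => ?_, fun t ht => h4 t ht⟩
  · have h7 := dvd_add (h5.trans h3) h6
    refine h7.trans (dvd_of_eq ?_)
    ring
  · by_contra hcon
    push Not at hcon
    have h7 := hcon 0
    have h8 := hcon 1
    rw [zero_pow (by omega), zero_add] at h7
    rw [one_pow] at h8
    have h9 := dvd_sub h8 h7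
    rw [add_sub_cancel_right] at h9
    have h10 := Int.eq_one_of_dvd_one (by positivity) h9
    have h11 := hp.two_le
    omega

end Pool.Agent.Results.MP_484c84_nt.PowersPlusA
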