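import Mathlib
import Pool.Agent.N893.FR.Fin

set_option autoImplicit false

/-!
# Boxes on which the forms `a x ^ n + y ^ n` represent no prime

Let `n ≥ 2`, `κ = 1` for odd `n`, `κ = 2` for even `n`, `d(n)` the number of divisors of `n`, and
`F(X) = log X (log₂ X) ^ (d(n) + κ) (log₄ X) ^ κ / (log₃ X) ^ (2 κ)`, with iterated logarithms. We show that
for all large `X` and all `N, M ≥ 1` with `N M ≤ c F(X)` every interval of length `X` contains an integer
`a ≡ 2 (mod 4)` such that the irreducible form `a x ^ n + y ^ n` represents no prime (up to sign) with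
`|x| ≤ N`, `|y| ≤ M`. For `n = 2` this concerns the forms `a x² + y²` of discriminant `-4 a`; `N = 1` are the
shifts `y ^ n + a`, and `M = 1` gives the values `a x ^ n + 1` and `a x ^ n - 1`.

Proof. We may assume that `x, y` are coprime. Let `y₀ = (log X) / 10` and let `S` be the set of the primes in
`(u, v]`, `log u = B log₂ y₀`, `log v = log y₀ log₃ y₀ / (2 (B + 2) log₂ y₀)`. Put `a ≡ -1` modulo the primes
`p ≤ y₀`, `p ∉ S`, `p ∤ 4`. They remove the pairs with `y ^ n ≡ x ^ n (mod p)`. For the pairs left, `y - x`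
(and `y + x`, if `n` is even) are smooth or have no prime factor in `S`. We fix the smaller one of `x`, `y`,
and use Selberg's sieve for the other one, with `gcd (n, p - 1)` classes for the small primes `p ∉ S`, with `κ`
classes for `p ∈ S`, and one class if `p` divides the fixed number; this is summed with a moment of
`d / φ(d)`. For the primes of `S` a greedy choice of `-a ≡ s ^ n` removes each pair with `p ∤ x y` with
probability `gcd (n, p - 1) / p`. The `O(log X)` pairs left give linear forms in `a`, no two of which are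
proportional, and these are made composite by primes larger than a power of `log X`, by the covering theorem
`H361R2.PA.coveringD` of the starting library (proved there for the starting result MP_3bc45c_nt.RecordGaps),
for which we prove a version for linear forms (`N893.FR.assembleP`).
-/

namespace Pool.Agent.Results.MP_f1a94e_nt.PrimeFreeBoxes

open Finset Polynomial

/-- `κ(n)`: `2` if `n` is even, `1` if `n` is odd -/
def kp (n : ℕ) : ℕ := if Even n then 2 else 1

/-- `log X (log₂ X) ^ (d(n) + κ(n)) (log₄ X) ^ κ(n) / (log₃ X) ^ (2 κ(n))` -/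
noncomputable def F (n : ℕ) (X : ℝ) : ℝ :=
  Real.log X * (Real.log (Real.log X)) ^ (n.divisors.card + kp n) *
    (Real.log (Real.log (Real.log (Real.log X)))) ^ (kp n) /
      (Real.log (Real.log (Real.log X))) ^ (2 * kp n)

theorem irr (n : ℕ) (hn : 1 ≤ n) (a : ℤ) (ha : (4 : ℤ) ∣ a - 2) : Irreducible (X ^ n + C a : Polynomial ℤ) := by
  have hP : (Ideal.span {(2 : ℤ)}).IsPrime := by
    rw [Ideal.span_singleton_prime two_ne_zero]
    exact Int.prime_two
  have h2a : (2 : ℤ) ∣ a := by
    obtain ⟨j, hj⟩ := ha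
    exact ⟨2 * j + 1, by linarith⟩
  have hmon : (X ^ n + C a : Polynomial ℤ).Monic := monic_X_pow_add_C a (by omega)
  have hE : (X ^ n + C a : Polynomial ℤ).IsEisensteinAt (Ideal.span {(2 : ℤ)}) := by
    refine ⟨?_, ?_, ?_⟩
    · rw [hmon.leadingCoeff, Ideal.mem_span_singleton]
      intro h
      have := Int.eq_one_of_dvd_one (by norm_num) h
      norm_num at this
    · intro m hm
      rw [natDegree_X_pow_add_C] at hm
      rw [Ideal.mem_span_singleton, coeff_add, coeff_X_pow, if_neg (by omega), zero_add, coeff_C]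
      split_ifs
      · exact h2a
      · exact dvd_zero _
    · rw [Ideal.span_singleton_pow, Ideal.mem_span_singleton, coeff_add, coeff_X_pow, if_neg (by omega), zero_add,
        coeff_C_zero]
      intro h
      obtain ⟨j, hj⟩ := ha
      obtain ⟨i, hi⟩ := h
      omega
  exact hE.irreducible hP hmon.isPrimitive (by rw [natDegree_X_pow_add_C]; omega)

/-- For every `n ≥ 2` there is `c > 0` such that for all large `x` and all `N, M ≥ 1` with
`N M ≤ c * F n x` every interval `(z, z + x]` contains an integer `a ≡ 2 (mod 4)` for which no `a s ^ n + t ^ n`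
with integers `|s| ≤ N`, `|t| ≤ M` is a prime (up to sign). The polynomial `X ^ n + a` is irreducible, and no
prime divides all the values `s ^ n a + t ^ n`. -/
theorem result (n : ℕ) (hn : 2 ≤ n) :
    ∃ c : ℝ, 0 < c ∧ ∃ X₀ : ℝ, ∀ x : ℝ, X₀ ≤ x → ∀ N M : ℕ, 1 ≤ N → 1 ≤ M → (N : ℝ) * M ≤ c * F n x →
      ∀ z : ℤ, ∃ a : ℤ, (z : ℝ) < a ∧ (a : ℝ) ≤ z + x ∧ (4 : ℤ) ∣ a - 2 ∧
        Irreducible (X ^ n + C a : Polynomial ℤ) ∧
        (∀ p : ℕ, p.Prime → ∃ s t : ℤ, ¬ (p : ℤ) ∣ a * s ^ n + t ^ n) ∧
        ∀ s t : ℤ, |s| ≤ N → |t| ≤ M → ¬ Prime (a * s ^ n + t ^ n) := by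
  obtain ⟨c, hc, X₀, h⟩ := Pool.Agent.N893.FR.mainR n hn 4 (by norm_num) 2
  refine ⟨c, hc, X₀, fun x hx N M hN hM hNM z => ?_⟩
  obtain ⟨a, h1, h2, h3, h4⟩ := h x hx N M hN hM hNM z
  have h3' : (4 : ℤ) ∣ a - 2 := by exact_mod_cast h3
  refine ⟨a, h1, h2, h3', irr n (by omega) a h3', fun p hp => ⟨0, 1, ?_⟩, h4⟩
  rw [zero_pow (by omega), mul_zero, zero_add, one_pow]
  intro h5
  have h10 := Int.eq_one_of_dvd_one (by positivity) h5
  have h11 := hp.two_le
  omega

end Pool.Agent.Results.MP_f1a94e_nt.PrimeFreeBoxes
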