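import Pool.Agent.N893.QA.Fin

set_option autoImplicit false

/-!
# Shifts `a` for which `|n² + a|` is not prime for any small `n`

The formula of Hardy and Littlewood for the primes `|n² + a|` cannot hold uniformly in `a`: every interval
of length `X` contains an integer `a ≡ 1 (mod 4)`, so `-a` is not a square, for which no `|n² + a|` with
`|n| ≤ c log X (log₂ X)⁴ (log₄ X)² / (log₃ X)⁴` is a prime (`log₂, log₃, log₄` are iterated logarithms).
The same `a` serves for the polynomials `n ^ (2 j) + a`, `j ≤ J`, with `c / J` in place of `c`.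

Proof. Let `y = (log X) / 10`. Put `-a ≡ 1` modulo the primes `p ≤ (log y)^5` and the primes
`v < p ≤ y`, `log v = log y log₃ y / (10 log₂ y)`, and `a ≡ 1 (mod 4)`. If no such prime divides
`n ^ (2 j) + a`, then `n` is even and no such prime divides `n - 1` or `n + 1`. So, up to few smooth
numbers, `n - 1` and `n + 1` are twin primes, and Brun's bound saves `(log y)²`. For the remaining primes
`p` a greedy choice of a square `-a ≡ s² (mod p)` removes each `n`, `p ∤ n`, with probability
`2 / (p - 1)`, because `n ^ (2 j) ≡ s²` has two solutions `s`: this saves `(log y log₃ y)² / (log₂ y)⁴`.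
The values left are `O(log X)` in number, and are made composite by the sieve of the starting result
MP_3bc45c_nt.RecordGaps, in the form `H361R2.PA.assembleM`.
-/

namespace Pool.Agent.Results.MP_391708_nt.ShiftsWithoutPrimes

/-- `log X (log₂ X)⁴ (log₄ X)² / (log₃ X)⁴` with the iterated logarithms `log₂, log₃, log₄`. -/
noncomputable def range (X : ℝ) : ℝ :=
  Real.log X * (Real.log (Real.log X)) ^ 4 * (Real.log (Real.log (Real.log (Real.log X)))) ^ 2 /
    (Real.log (Real.log (Real.log X))) ^ 4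

/-- There is an absolute `c > 0` such that for all large `X` every interval `(z, z + X]` contains an integer
`a ≡ 1 (mod 4)`, which is not of the form `-m²`, such that `|n² + a|` is not a prime for any integer `n`
with `|n| ≤ c * range X`. More generally, for every `1 ≤ J ≤ (log log X) ^ 3` every such interval contains
an integer `a ≡ 1 (mod 4)` such that none of the numbers `|n ^ (2 j) + a|`, `1 ≤ j ≤ J`,
`|n| ≤ (c / J) * range X`, is a prime. -/
theorem result : ∃ c : ℝ, 0 < c ∧ ∃ X₀ : ℝ, ∀ X : ℝ, X₀ ≤ X →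
    ∀ J : ℕ, 1 ≤ J → (J : ℝ) ≤ (Real.log (Real.log X)) ^ 3 → ∀ z : ℤ,
    ∃ a : ℤ, (z : ℝ) < a ∧ (a : ℝ) ≤ z + X ∧ a % 4 = 1 ∧ (∀ m : ℤ, a ≠ -m ^ 2) ∧
      ∀ j : ℕ, 1 ≤ j → j ≤ J → ∀ n : ℤ, |(n : ℝ)| ≤ c / J * range X →
        ¬ (n ^ (2 * j) + a).natAbs.Prime := by
  obtain ⟨c, hc, X₀, h⟩ := Pool.Agent.N893.QA.main
  refine ⟨c, hc, X₀, fun X hX J hJ hJX z => ?_⟩
  obtain ⟨a, h1, h2, h3, h4⟩ := h X hX J hJ hJX z
  refine ⟨a, h1, h2, h3, ?_, ?_⟩
  · intro m hm
    have h5 : a % 4 = (-(m ^ 2)) % 4 := by rw [hm]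
    rcases Int.even_or_odd' m with ⟨k, rfl | rfl⟩
    · have e : -((2 * k) ^ 2) = 4 * (-(k ^ 2)) := by ring
      rw [e] at h5
      omega
    · have e : -((2 * k + 1) ^ 2) = 4 * (-(k ^ 2) - k) - 1 := by ring
      rw [e] at h5
      omega
  · intro j hj1 hj2 n hn hp
    refine h4 j hj1 hj2 n ?_ (Int.prime_iff_natAbs_prime.2 hp)
    have hJ0 : (0 : ℝ) < J := by exact_mod_cast hJ
    calc (J : ℝ) * |(n : ℝ)| ≤ J * (c / J * range X) := by gcongr
      _ = c * range X := by field_simp
      _ = _ := rfl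

end Pool.Agent.Results.MP_391708_nt.ShiftsWithoutPrimes
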